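import Pool.Agent.H947Z.HS.C

set_option autoImplicit false

namespace Pool.Agent.Results.MP_66e6f4_an.AEveryF

open scoped Laplacian

/-- For every `C¹` function `f` with compact support (in particular for every smooth `f ≥ 0` with
compact support) there is a `C²` solution of `Δ u = f(u)` on `ℝ³` with no critical point, with
`{u > 0} ⊆ {x₁ > 0}`, taking every real value, that is not a function of one linear
coordinate. -/
theorem result :
    ∀ f : ℝ → ℝ, ContDiff ℝ 1 f → HasCompactSupport f →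
      ∃ u : EuclideanSpace ℝ (Fin 3) → ℝ,
        ContDiff ℝ 2 u ∧ (∀ x, (Δ u) x = f (u x)) ∧
        {x | fderiv ℝ u x = 0} = ∅ ∧
        {x | 0 < u x} ⊆ {x | 0 < x 0} ∧
        Function.Surjective u ∧
        ¬ ∃ (e : EuclideanSpace ℝ (Fin 3)) (c : ℝ) (V : ℝ → ℝ),
          ∀ x, u x = V (inner ℝ e x + c) := by
  intro f hf hc
  obtain ⟨u, h1, h2, h3, h4, h5, h6⟩ := Pool.Agent.H947Z.HS.main hf hc
  exact ⟨u, h1, h2, Set.eq_empty_of_forall_notMem h3, fun x hx => h4 x hx, h5, h6⟩

end Pool.Agent.Results.MP_66e6f4_an.AEveryF
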